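import Pool.Agent.Lib.DK.FH.Co

/-!
# Theorem DK, part F: the coefficients `cM`: the prime `𝔭`, integrality
-/

set_option autoImplicit false

open scoped Pointwise

noncomputable section

namespace Pool.Agent.DK

open Pool.Agent.MuZ Pool.Agent.FW NumberField
open Pool.Agent.DI (io ofC io_inj exists_io io_ofC ofC_io VP MP UP TP ex sqr sqr_sq kap)

variable {k : ℕ}

theorem not_le_pp [SqK k] {b : Ideal (OO k)} (h : PrI b 2) : ¬ b ≤ pp k := by
  intro h1
  obtain ⟨-, -, hp, -⟩ := sO4 sO2 k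
  apply hp.ne_top
  rw [eq_top_iff, ← h]
  refine sup_le h1 ?_
  rw [Ideal.span_le, Set.singleton_subset_iff]
  exact_mod_cast two_mem_pp

theorem rO_mul [SqK k] (hR5 : S_R5) {f : ℕ} (hf : Odd f) (hf3 : 3 ≤ f) {a b c : Ideal (OO k)}
    (ha : FB f a) (hb : FB f b) (hc : FB f c) : rO f a b * rO f b c = rO f a c := by
  have hT := fb_top (k := k) f
  have h : ∀ x y : Ideal (OO k), FB f x → FB f y → fr f x ≠ 0 ∧ io (rO f x y) = fr f y / fr f x := by
    intro x y hx hy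
    obtain ⟨h1, h2, -⟩ := hR5 k f ⊤ x y hf hf3 hT.ne hx.ne hy.ne
      (by unfold PrI; exact top_sup_eq _) (by unfold PrI; exact top_sup_eq _) hx.cop hy.cop
    exact ⟨h1, h2⟩
  apply io_inj
  rw [map_mul, (h a b ha hb).2, (h b c hb hc).2, (h a c ha hc).2]
  have h1 := (h b c hb hc).1
  have h2 := (h a b ha hb).1
  field_simp

theorem rO_self [SqK k] (hR5 : S_R5) {f : ℕ} (hf : Odd f) (hf3 : 3 ≤ f) {a : Ideal (OO k)}
    (ha : FB f a) : rO f a a = 1 := by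
  have hT := fb_top (k := k) f
  obtain ⟨h1, h2, -⟩ := hR5 k f ⊤ a a hf hf3 hT.ne ha.ne ha.ne
      (by unfold PrI; exact top_sup_eq _) (by unfold PrI; exact top_sup_eq _) ha.cop ha.cop
  apply io_inj
  rw [h2, map_one, div_self h1]

/-- `±1` modulo `2` is a unit -/
theorem tp_unit {P : Ideal ZZ} [P.IsPrime] (h2 : MP P 2) {x : Om}
    (h : TP P 2 (x - 1) ∨ TP P 2 (x + 1)) : UP P x := by
  rcases h with ⟨y, hy, he⟩ | ⟨y, hy, he⟩
  · refine DI.UP.congr DI.UP.one ?_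
    rw [he]
    exact DI.MP.mul_right h2 hy
  · refine DI.UP.congr DI.UP.one.neg ?_
    rw [sub_neg_eq_add, he]
    exact DI.MP.mul_right h2 hy

/-- `fr(1)/fr(b)` is a unit for `b` prime to `2` -/
theorem rO_unit [SqK k] (hR5 : S_R5) (hD9 : S_D9) {P : Ideal ZZ} (hP : AbP k P) {f : ℕ} (hf : Odd f)
    (hf3 : 3 ≤ f) {b : Ideal (OO k)} (hb : FB f b) (hb2 : PrI b 2) : UP P (rO f b ⊤) := by
  have : P.IsPrime := hP.1.1
  have hT := fb_top (k := k) f
  obtain ⟨h1, -, -⟩ := hD9 k f hf hf3 P hP.1 hP.2.1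
  have h2 := tp_unit hP.2.1 (h1 b ⊤ hb.ne hT.ne hb.cop hT.cop (Or.inl ⟨hP, not_le_pp hb2⟩))
  rw [Ideal.mul_top] at h2
  have h3 : rO f b ⊤ = (rO f ⊤ b)⁻¹ := eq_inv_of_mul_eq_one_left (by
    rw [rO_mul hR5 hf hf3 hb hT hb, rO_self hR5 hf hf3 hb])
  rw [h3]
  exact DI.UP.inv h2

/-- `2 fr(1)/fr(𝔭 b)` is integral for `b` prime to `2` -/
theorem rO_pp [SqK k] (hR5 : S_R5) (hD9 : S_D9) {P : Ideal ZZ} (hP : AbP k P) {f : ℕ} (hf : Odd f)
    (hf3 : 3 ≤ f) {b : Ideal (OO k)} (hb : FB f b) (hb2 : PrI b 2) :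
    VP P (rO f (pp k * b) ⊤ * 2) := by
  have : P.IsPrime := hP.1.1
  have hT := fb_top (k := k) f
  obtain ⟨-, h1, -⟩ := hD9 k f hf hf3 P hP.1 hP.2.1
  have h2 := tp_unit hP.2.1 ((h1 b hb.ne hb.cop).1 hP)
  have h3 := rO_unit hR5 hD9 hP hf hf3 hb hb2
  rw [← rO_mul hR5 hf hf3 (fb_mul (fb_pp hf hf3) hb) hb hT]
  have e : rO f (pp k * b) b * rO f b ⊤ * 2 = rO f (pp k * b) b * 2 * rO f b ⊤ := by ring
  rw [e]
  exact DI.VP.mul h2.1 h3.1

theorem nm_odd {u : OO k} (h : Odd (Nm u)) : ¬ (2 : ℤ) ∣ u.re := by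
  rintro ⟨c, hc⟩
  have h1 : Nm u = 2 * (2 * c ^ 2 + c * u.im + k * u.im ^ 2) := by
    unfold Nm
    rw [hc]
    ring
  rw [h1] at h
  exact absurd (even_two_mul _) (Int.not_even_iff_odd.2 h)

/-- the coefficients with odd index are integral -/
theorem cM_odd [SqK k] (hC7 : S_C7) {P : Ideal ZZ} (hP : AbP k P) {f : ℕ} {m b : Ideal (OO k)}
    (hm : FM f m) (hb : FB f b) (hb2 : PrI b 2) {n : ℕ} (hn : Odd n) :
    VP P (ofC (cM f m b n)) := by
  classical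
  have : P.IsPrime := hP.1.1
  rw [(ofC_cM hC7 hm hb n).1]
  refine DI.VP.sum _ _ fun v hv => ?_
  obtain ⟨-, u, hu0, -, hN, he⟩ := vN_one hC7 hm hb hv
  have h1 : UP P (toO u) := by
    apply pp_unit hP
    apply nm_odd
    rw [hN, NI_mul]
    have h2 := (NI_odd hm.two).mul (NI_odd hb2)
    have h3 := h2.mul hn
    exact_mod_cast h3
  refine DI.VP.mul ?_ ?_
  · split_ifs
    · exact DI.VP.sub DI.VP.one (DI.VP.nat _)
    · exact DI.VP.one
  · rw [he, ofC_io, div_eq_mul_inv]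
    exact DI.VP.mul (DI.VP.mul (DI.VP.nat _) (DI.VP.nat _)) (DI.UP.inv h1).1

/-- the remaining terms -/
theorem vN_rest [SqK k] (hC7 : S_C7) {f : ℕ} {m b : Ideal (OO k)} (hm : FM f m) (hb : FB f b)
    (hb2 : PrI b 2) {n : ℕ} {v : ℂ} (hv : v ∈ vN f (m * (pp k * b)) n)
    (hnot : v - 1 / f ∉ Lam (m * b)) :
    ∃ u : OO k, ¬ (2 : ℤ) ∣ u.re ∧ v⁻¹ = io (2 * ((f : Om) * NI (m * b)) / toO u) := by
  have hpb := fb_mul (fb_pp (k := k) hm.odd hm.three) hb
  obtain ⟨hv0, -⟩ := vN_one hC7 hm hpb hv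
  obtain ⟨-, h1, -⟩ := hC7 k f m (pp k * b) hm hpb
  obtain ⟨h3, -⟩ := (h1 n v).1 hv
  have hf0 : (f : ℂ) ≠ 0 := by
    have := hm.three
    have : f ≠ 0 := by omega
    exact_mod_cast this
  have hN0 : (NI (m * b) : ℂ) ≠ 0 := by
    exact_mod_cast NI_ne (mul_ne_zero hm.ne hb.ne)
  have e1 : m * (pp k * b) = pp k * (m * b) := by ring
  rw [e1] at h3
  have h2x : 2 * (v - 1 / f) ∈ Lam (m * b) := by
    have := lam_prod.1 h3 2 two_mem_pp
    rwa [toC_two] at this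
  have h4 : (f : ℂ) * v ∈ Lam (pp k * (m * b)) := by
    have h7 := lam_add (lam_nat f h3) (one_lam (pp k * (m * b)))
    have e : (f : ℂ) * (v - 1 / f) + 1 = f * v := by
      field_simp
      ring
    rwa [e] at h7
  obtain ⟨u, hu⟩ := h4 _ (Ideal.mul_mem_mul two_mem_pp (NI_mem (m * b)))
  obtain ⟨c, hc⟩ := h4 _ (Ideal.mul_mem_mul wI_mem_pp (NI_mem (m * b)))
  rw [toC_mul, toC_two, toC_nat] at hu
  rw [toC_mul, toC_nat] at hc
  have hwu : wI k * u = 2 * c := by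
    apply toC_inj
    rw [toC_mul, toC_mul, toC_two, ← hu, ← hc]
    ring
  have hu0 : u ≠ 0 := by
    rintro rfl
    rw [toC_zero] at hu
    exact mul_ne_zero (mul_ne_zero two_ne_zero hN0) (mul_ne_zero hf0 hv0) hu
  refine ⟨u, ?_, ?_⟩
  · rintro ⟨a, ha⟩
    apply hnot
    have h5 := congrArg QuadraticAlgebra.im hwu
    have h6 : (wI k * u).im = u.re + u.im := by
      rw [im_mul]
      simp [wI]
    have h7 : ((2 : OO k) * c).im = 2 * c.im := by
      have h8 : (2 : OO k).re = 2 := by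
        have := re_nat (k := k) 2
        exact_mod_cast this
      have h9 : (2 : OO k).im = 0 := by
        have := im_nat (k := k) 2
        exact_mod_cast this
      rw [im_mul, h8, h9]
      ring
    rw [h6, h7] at h5
    obtain ⟨d, hd⟩ : ∃ d : ℤ, u.im = 2 * d := ⟨c.im - a, by omega⟩
    have h8 : toC u = 2 * toC (⟨a, d⟩ : OO k) := by
      rw [toC_apply, toC_apply, ha, hd]
      push_cast
      ring
    have h9 : (NI (m * b) : ℂ) * (f * v) ∈ Lam (m * b) := by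
      have e : (NI (m * b) : ℂ) * (f * v) = toC (⟨a, d⟩ : OO k) := by
        have h10 : 2 * ((NI (m * b) : ℂ) * (f * v)) = 2 * toC (⟨a, d⟩ : OO k) := by
          rw [← h8, ← hu]
          ring
        exact mul_left_cancel₀ two_ne_zero h10
      rw [e]
      exact toC_lam _ _
    have hNodd : Odd (NI (m * b)) := by
      rw [NI_mul]
      exact (NI_odd hm.two).mul (NI_odd hb2)
    have h11 : (f : ℂ) * v ∈ Lam (m * b) := by
      refine lam_odd hNodd h9 ?_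
      have h12 := lam_prod.1 h4 2 two_mem_pp
      rwa [toC_two] at h12
    refine lam_odd hm.odd ?_ h2x
    have h13 := lam_sub h11 (one_lam (m * b))
    have e : (f : ℂ) * v - 1 = f * (v - 1 / f) := by
      field_simp
    rwa [e] at h13
  · rw [map_div₀, map_mul, map_mul, map_natCast, map_natCast, map_ofNat, io_toO, ← hu]
    field_simp

/-- `c(2 n)` for `𝔭 b` and `c(n)` for `b` -/
theorem cM_pp [SqK k] (hC7 : S_C7) (hR5 : S_R5) (hD9 : S_D9) {P : Ideal ZZ} (hP : AbP k P) {f : ℕ}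
    {m b : Ideal (OO k)} (hm : FM f m) (hb : FB f b) (hb2 : PrI b 2) (n : ℕ) :
    VP P (rO f (pp k * b) ⊤ * (ofC (cM f m (pp k * b) (2 * n)) - ofC (cM f m b n))) := by
  classical
  have : P.IsPrime := hP.1.1
  have hpb := fb_mul (fb_pp (k := k) hm.odd hm.three) hb
  obtain ⟨-, h1, -⟩ := hC7 k f m (pp k * b) hm hpb
  obtain ⟨-, h2, -⟩ := hC7 k f m b hm hb
  have e1 : m * (pp k * b) = pp k * (m * b) := by ring
  have hN2 : NI (m * (pp k * b)) = 2 * NI (m * b) := by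
    rw [e1, NI_mul, (sO4 sO2 k).2.2.2.2.1]
  have hfil : (vN f (m * (pp k * b)) (2 * n)).filter (fun v : ℂ => v - 1 / f ∈ Lam (m * b)) =
      vN f (m * b) n := by
    ext v
    rw [Finset.mem_filter, h1, h2, hN2]
    constructor
    · rintro ⟨⟨-, h3⟩, h4⟩
      refine ⟨h4, ?_⟩
      push_cast at h3
      linarith
    · rintro ⟨h3, h4⟩
      refine ⟨⟨?_, ?_⟩, h3⟩
      · rw [e1]
        exact lam_mono h3
      · push_cast
        linarith
  have hif : ∀ v ∈ vN f (m * b) n, (v - 1 / f ∈ Lam (pp k * b) ↔ v - 1 / f ∈ Lam b) := by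
    intro v hv
    obtain ⟨h3, -⟩ := (h2 n v).1 hv
    constructor
    · intro h4
      refine lam_odd (NI_odd hm.two) (lam_NI h3) ?_
      have h5 := lam_prod.1 h4 2 two_mem_pp
      rwa [toC_two] at h5
    · exact lam_mono
  have hsplit := Finset.sum_filter_add_sum_filter_not (vN f (m * (pp k * b)) (2 * n))
    (fun v : ℂ => v - 1 / f ∈ Lam (m * b))
    (fun v : ℂ => (if v - 1 / f ∈ Lam (pp k * b) then (1 - NI m : Om) else 1) * ofC v⁻¹)
  rw [hfil] at hsplit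
  have hsame : ∑ v ∈ vN f (m * b) n,
      (if v - 1 / f ∈ Lam (pp k * b) then (1 - NI m : Om) else 1) * ofC v⁻¹ =
      ∑ v ∈ vN f (m * b) n, (if v - 1 / f ∈ Lam b then (1 - NI m : Om) else 1) * ofC v⁻¹ := by
    refine Finset.sum_congr rfl fun v hv => ?_
    rw [if_congr (hif v hv) rfl rfl]
  rw [(ofC_cM hC7 hm hpb (2 * n)).1, (ofC_cM hC7 hm hb n).1, ← hsplit, hsame, add_sub_cancel_left,
    Finset.mul_sum]
  refine DI.VP.sum _ _ fun v hv => ?_
  obtain ⟨hv1, hv2⟩ := Finset.mem_filter.1 hv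
  obtain ⟨u, hu, he⟩ := vN_rest hC7 hm hb hb2 hv1 hv2
  have h3 := pp_unit hP hu
  rw [he, ofC_io]
  have e : rO f (pp k * b) ⊤ * ((if v - 1 / f ∈ Lam (pp k * b) then (1 - NI m : Om) else 1) *
      (2 * ((f : Om) * NI (m * b)) / toO u)) =
      (rO f (pp k * b) ⊤ * 2) * (if v - 1 / f ∈ Lam (pp k * b) then (1 - NI m : Om) else 1) *
      (((f : Om) * NI (m * b)) * (toO u)⁻¹) := by
    rw [div_eq_mul_inv]
    ring
  rw [e]
  refine DI.VP.mul (DI.VP.mul (rO_pp hR5 hD9 hP hm.odd hm.three hb hb2) ?_)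
    (DI.VP.mul (DI.VP.mul (DI.VP.nat _) (DI.VP.nat _)) (DI.UP.inv h3).1)
  split_ifs
  · exact DI.VP.sub DI.VP.one (DI.VP.nat _)
  · exact DI.VP.one

end Pool.Agent.DK
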