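import Pool.Agent.Lib.DK.FH.UF
import Pool.Agent.Lib.DK.F4.Honda
import Pool.Agent.Lib.DK.F4.FInt
import Pool.Agent.Lib.DK.F4.Contra

/-!
# Theorem DK, part F: Honda integrality and the contradiction (`S_FH`)
-/

set_option autoImplicit false

open scoped Pointwise

noncomputable section

namespace Pool.Agent.DK

open Pool.Agent.MuZ Pool.Agent.FW NumberField
open Pool.Agent.DI (io ofC io_inj exists_io io_ofC ofC_io VP MP UP TP ex sqr sqr_sq kap)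
open _root_.DK.F4 _root_.DI.F4

variable {k : ℕ}

/-- `V_P` as a valuation subring -/
def VPv (P : Ideal ZZ) [P.IsPrime] : ValuationSubring Om where
  carrier := {x | VP P x}
  mul_mem' := fun ha hb => DI.VP.mul ha hb
  one_mem' := DI.VP.one
  add_mem' := fun ha hb => DI.VP.add ha hb
  zero_mem' := DI.VP.zero
  neg_mem' := fun ha => DI.VP.neg ha
  mem_or_inv_mem' := fun x => DI.VP.or_vp_inv x

/-- the ring `Kf ∩ V_P` -/
def OP (k f : ℕ) (P : Ideal ZZ) [P.IsPrime] : Subring Om := (Kf k f).toSubring ⊓ VPs P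

theorem mem_OP {f : ℕ} {P : Ideal ZZ} [P.IsPrime] {x : Om} :
    x ∈ OP k f P ↔ x ∈ Kf k f ∧ VP P x := Iff.rfl

theorem mem_Kf [SqK k] (hE1 : S_E1) {f : ℕ} (hf0 : 0 < f) {x : Om}
    (h : ∀ τ ∈ GK k, Psi τ f (⊤ : Ideal (OO k)) → τ x = x) : x ∈ Kf k f := by
  intro τ hτ a ha h1
  exact h τ hτ ((hE1 k f hf0).2.2.1 τ a ⊤ ha h1)

/-- the parameters -/
theorem FH_par [SqK k] (hB1 : S_B1) (hB6 : S_B6) (hB12 : S_B12) (hR1 : S_R1) (hR2 : S_R2)
    (hR4 : S_R4) (hR5 : S_R5) (hE1 : S_E1) (hE10 : S_E10) (hKap : S_Kap) {f : ℕ} (hf : Odd f)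
    (hf3 : 3 ≤ f) {P : Ideal ZZ} [P.IsPrime] (hP : AbP k P) :
    ∃ a d h c l m : Om, a ∈ OP k f P ∧ d ∈ OP k f P ∧ h ∈ OP k f P ∧ c ∈ OP k f P ∧
      l ∈ OP k f P ∧ m ∈ OP k f P ∧ (1 + 2 * c)⁻¹ ∈ OP k f P ∧ 1 + 2 * c ≠ 0 ∧
      Par a d h c l ∧ a = c + 2 * m ∧ 1 + 4 * h ≠ 0 ∧ (1 + 2 * c) / 2 = rO f (pp k) ⊤ ∧
      aP a d = a2O f (⊤ : Ideal (OO k)) ∧ bP a d = a4O f (⊤ : Ideal (OO k)) ∧
      kO f (⊤ : Ideal (OO k)) = 1 + 4 * a ∧
      ∀ φ ∈ GK k, Psi φ f (pp k) → φ a = l ∧ φ d = h ^ 2 := by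
  have hf0 : 0 < f := by omega
  have hpp := fb_pp (k := k) hf hf3
  have hT := fb_top (k := k) f
  have hm : pp k * ⊤ = pp k := Ideal.mul_top _
  obtain ⟨K1, K2⟩ := hKap k f hf hf3
  obtain ⟨-, kT1, kT2, kT3⟩ := K1 ⊤ hT
  obtain ⟨-, kp1, -, kp3⟩ := K1 (pp k) hpp
  obtain ⟨y, hy, ey⟩ := kT3 P hP
  obtain ⟨y', hy', ey'⟩ := kp3 P hP
  obtain ⟨⟨z, hz, ez⟩, ⟨s, hs, es⟩, k3⟩ := K2 P hP
  obtain ⟨e1, e2, -, -⟩ := e_eq (k := k) hB1 hB6 hB12 hR1 hR4 hR5 hf hf3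
  have hd := ((hR2 k _ hT.ne P hP.1).2.1 hP).1
  have hh := ((hR2 k _ hpp.ne P hP.1).2.1 hP).2.1
  have htop : ∀ τ : Gal(Om/ℚ), Psi τ f (⊤ : Ideal (OO k)) → ∀ b : Ideal (OO k), b ≠ ⊥ →
      τ (dO b) = dO b ∧ τ (tO b) = tO b := by
    intro τ hτ b hb
    have h1 := hτ.dd b hb
    have h2 := (hE10 k τ f ⊤ hf0 hτ).1 b hb
    rw [Ideal.top_mul] at h1 h2
    exact ⟨h1, h2⟩
  have h4 : (4 : Om) ≠ 0 := by norm_num
  have h2 : (2 : Om) ≠ 0 := by norm_num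
  have m4 : (4 : Om) ∈ Kf k f := by
    have := natCast_mem (Kf k f) 4
    exact_mod_cast this
  have m2 : (2 : Om) ∈ Kf k f := by
    have := natCast_mem (Kf k f) 2
    exact_mod_cast this
  have hrK : rO f (pp k) ⊤ ∈ Kf k f := by
    refine mem_Kf hE1 hf0 fun τ _ h5 => ?_
    obtain ⟨-, h6, -⟩ := hE10 k τ f ⊤ hf0 h5
    have h7 := (h6 f hf hf3 dvd_rfl).1 (pp k) ⊤ hpp.ne hpp.cop hT.ne hT.cop
    rwa [Ideal.top_mul, Ideal.top_mul] at h7
  have ha : (kO f (⊤ : Ideal (OO k)) - 1) / 4 = y := by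
    rw [ey]
    field_simp
  have hl : (kO f (pp k) - 1) / 4 = y' := by
    rw [ey']
    field_simp
  have hc : (2 * rO f (pp k) ⊤ - 1) / 2 = z := by
    rw [ez]
    field_simp
  have hms : (y - z) / 2 = s := by
    rw [← ha, ← hc, es]
    field_simp
  have ea : kO f (⊤ : Ideal (OO k)) = 1 + 4 * y := by
    linear_combination ey
  have el : kO f (pp k) = 1 + 4 * y' := by
    linear_combination ey'
  have ec : 2 * rO f (pp k) ⊤ = 1 + 2 * z := by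
    linear_combination ez
  have haK : y ∈ Kf k f := by
    rw [← ha]
    exact div_mem (sub_mem kT1 (one_mem _)) m4
  have hlK : y' ∈ Kf k f := by
    rw [← hl]
    exact div_mem (sub_mem kp1 (one_mem _)) m4
  have hcK : z ∈ Kf k f := by
    rw [← hc]
    exact div_mem (sub_mem (mul_mem m2 hrK) (one_mem _)) m2
  have hsK : s ∈ Kf k f := by
    rw [← hms]
    exact div_mem (sub_mem haK hcK) m2
  have hU : UP P (1 + 2 * z) := by
    refine DI.UP.congr DI.UP.one ?_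
    rw [add_sub_cancel_left]
    exact DI.MP.mul_right hP.2.1 hz
  have hUh : UP P (1 + 4 * tO (pp k)) := by
    refine DI.UP.congr DI.UP.one ?_
    have e : 1 + 4 * tO (pp k) - 1 = 2 * (2 * tO (pp k)) := by ring
    rw [e]
    exact DI.MP.mul_right hP.2.1 (DI.VP.mul hP.2.1.vp hh.1)
  refine ⟨y, dO ⊤, tO (pp k), z, y', s, ⟨haK, hy⟩, ⟨?_, hd.1⟩, ⟨?_, hh.1⟩, ⟨hcK, hz⟩, ⟨hlK, hy'⟩,
    ⟨hsK, hs⟩, ⟨?_, (DI.UP.inv hU).1⟩, DI.UP.ne_zero hU, ⟨e1, ?_⟩, ?_, DI.UP.ne_zero hUh, ?_,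
    ?_, ?_, ea, ?_⟩
  · exact mem_Kf hE1 hf0 fun τ _ h5 => (htop τ h5 _ hT.ne).1
  · exact mem_Kf hE1 hf0 fun τ _ h5 => (htop τ h5 _ hpp.ne).2
  · have h9 : (1 + 2 * z)⁻¹ ∈ Kf k f := inv_mem (add_mem (one_mem _) (mul_mem m2 hcK))
    exact h9
  · rw [← ea, ← el, ← ec]
    exact k3
  · rw [← hms]
    field_simp
    ring
  · rw [← ec, mul_div_cancel_left₀ _ h2]
  · unfold aP a2O
    rw [← ea, ha]
  · unfold bP a4O
    rw [ea]
  · intro φ _ hφ
    have h5 := kT2 φ (pp k) hφ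
    have h6 := hφ.dd ⊤ hT.ne
    rw [hm] at h5 h6
    refine ⟨?_, by rw [h6, e2]⟩
    rw [← ha, map_div₀, map_sub, map_one, map_ofNat, h5, hl]

/-- **S_FH.** -/
theorem tFH (hB1 : S_B1) (hB6 : S_B6) (hB12 : S_B12) (hR1 : S_R1) (hR2 : S_R2) (hR4 : S_R4)
    (hR5 : S_R5) (hD9 : S_D9) (hO7 : S_O7) (hC7 : S_C7) (hE1 : S_E1) (hE3 : S_E3)
    (hE10 : S_E10) (hKf : S_Kf) (hLead : S_Lead) (hKap : S_Kap) : S_FH := by
  intro k _ f m m' R hm hm' hR hRC P hP σ hσ N0 β β' hβ hβ' hV hV' hu hu' TA WA TB WB ψ Q1 Q2 hTA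
    hTB hψ hrel hQ2 hQ K' hK' hQ1k hQ2k vQ1 vQ2
  have hPp : P.IsPrime := hP.1.1
  have hf := hm.odd
  have hf3 := hm.three
  have hf0 : 0 < f := by omega
  have hf' := hKf k f hf hf3
  obtain ⟨-, -, -, hKn, -, -, -, hK8, hK9, -⟩ := hf'
  obtain ⟨φ, hφ, hFro⟩ := hK9 P hP
  have hpsi : Psi φ f (pp k) := (hE3 k P φ hφ hFro f hf).1 hP
  obtain ⟨a, d, h, c, l, s, ha, hd, hh, hc, hl, hs, hei, he0, hpar, has, hh0, her, eA, eB, eK,
    hgal⟩ := FH_par (k := k) hB1 hB6 hB12 hR1 hR2 hR4 hR5 hE1 hE10 hKap hf hf3 hP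
  obtain ⟨gal1, gal2⟩ := hgal φ hφ hpsi
  have m2 : (2 : Om) ∈ Kf k f := by
    have := natCast_mem (Kf k f) 2
    exact_mod_cast this
  have hOd : Od (OP k f P) := by
    intro n hn
    have h9 : ((n : Om))⁻¹ ∈ Kf k f := inv_mem (natCast_mem _ n)
    exact ⟨h9, (DI.UP.inv (odd_UP hP.2.1 hn)).1⟩
  have hFr : ∀ a ∈ OP k f P, ∃ b ∈ OP k f P, (φ : Om →+* Om) a = a ^ 2 + 2 * b := by
    rintro a ⟨ha1, ha2⟩
    have h1 : φ a - a ^ 2 ∈ Kf k f := sub_mem (hKn φ a ha1) (pow_mem ha1 2)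
    have h9 : (φ a - a ^ 2) / 2 ∈ Kf k f := div_mem h1 m2
    refine ⟨(φ a - a ^ 2) / 2, ⟨h9, ?_⟩, ?_⟩
    · exact hK8 P hP.1 hP.2.1 _ h1 (DI.VP.frob hFro ha2)
    · change φ a = _
      ring
  have hei' : (1 + 4 * h)⁻¹ * (1 + 4 * h) = 1 := inv_mul_cancel₀ hh0
  obtain ⟨F1, F2⟩ := FS_int (O := OP k f P) ha hd hh hc hl hs hei he0 hpar has
  have haP : aP a d ∈ OP k f P := by
    have h4 : (4 : Om) ∈ OP k f P := by
      have := natCast_mem (OP k f P) 4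
      exact_mod_cast this
    exact add_mem ha (mul_mem (mul_mem h4 hd) (add_mem (one_mem _) (mul_mem h4 ha)))
  have hbP : bP a d ∈ OP k f P := by
    have h4 : (4 : Om) ∈ OP k f P := by
      have := natCast_mem (OP k f P) 4
      exact_mod_cast this
    exact mul_mem hd (pow_mem (add_mem (one_mem _) (mul_mem h4 ha)) 2)
  have he : 1 + 2 * c ∈ OP k f P := by
    have h4 : (2 : Om) ∈ OP k f P := by
      have := natCast_mem (OP k f P) 2
      exact_mod_cast this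
    exact add_mem (one_mem _) (mul_mem h4 hc)
  have hlog : cs (lgS ((φ : Om →+* Om) (aP a d)) ((φ : Om →+* Om) (bP a d))) (FS a d h c l) =
      PowerSeries.C (2 / (1 + 2 * c)) * lgS (aP a d) (bP a d) := by
    have g1 : (φ : Om →+* Om) a = l := gal1
    have g2 : (φ : Om →+* Om) d = h ^ 2 := gal2
    rw [map_aP, map_bP, g1, g2]
    exact lg_FS he0 hpar hei'
  have hrK : rO f (pp k) ⊤ ∈ Kf k f := by
    rw [← her]
    exact div_mem (show 1 + 2 * c ∈ Kf k f from he.1) m2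
  -- the data for one series
  have key : ∀ (m : Ideal (OO k)) (β : Om) (T W : PowerSeries Om), FM f m → β ∈ Kf k f →
      (∀ τ ∈ GK k, VP P (τ β)) → UP P (aF f m R σ N0 β 1) →
      TWr (a2O f (⊤ : Ideal (OO k))) (a4O f (⊤ : Ideal (OO k))) (uF f m R σ N0 β) T W →
      (∀ n, PowerSeries.coeff n T ∈ VPv P) ∧ PowerSeries.constantCoeff T = 0 ∧
      PowerSeries.constantCoeff W = 0 ∧ PowerSeries.coeff 1 T ≠ 0 ∧
      (PowerSeries.coeff 1 T)⁻¹ ∈ VPv P ∧ CEq (aP a d) (bP a d) T W := by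
    intro m β T W hm hβ hV hu hT
    obtain ⟨l1, l2, -, -⟩ := hLead k f m R hm hR hRC σ hσ N0 β hβ
    have hcu : ∀ n, PowerSeries.coeff n (uF f m R σ N0 β) = aF f m R σ N0 β n := fun n => by
      unfold uF
      rw [PowerSeries.coeff_mk]
    have hu0 : PowerSeries.constantCoeff (uF f m R σ N0 β) = 0 := by
      rw [← PowerSeries.coeff_zero_eq_constantCoeff_apply, hcu, l2]
    have hT0 : PowerSeries.constantCoeff T = 0 := by
      rw [← PowerSeries.coeff_zero_eq_constantCoeff_apply]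
      exact hT.T0
    have hW0 : PowerSeries.constantCoeff W = 0 := by
      rw [← PowerSeries.coeff_zero_eq_constantCoeff_apply]
      exact hT.W0
    have hT1 : PowerSeries.coeff 1 T = aF f m R σ N0 β 1 := by
      rw [hT.T1, hcu]
    have hTne : T ≠ 0 := by
      rintro rfl
      rw [map_zero] at hT1
      exact DI.UP.ne_zero hu hT1.symm
    have hE : CEq (aP a d) (bP a d) T W := by
      rw [eA, eB]
      exact hT.curve
    have hI : In (OP k f P) (TofS (aP a d) (bP a d) (uF f m R σ N0 β)) := by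
      refine honda hOd hFr haP hbP he he0 (FS_const a d h c l) (coeff_one_FS he0 hpar hei') F2 hlog
        hu0 ?_
      intro n
      refine ⟨?_, ?_⟩
      · have hIK : In (Kf k f).toSubring (uF f m R σ N0 β) := fun n => by
          rw [hcu]
          exact l1 n
        have hIφ : In (Kf k f).toSubring (PowerSeries.map (φ : Om →+* Om) (uF f m R σ N0 β)) :=
          hIK.map (fun x hx => hKn φ x hx)
        have hX2 : PowerSeries.constantCoeff ((PowerSeries.X : PowerSeries Om) ^ 2) = 0 := by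
          rw [map_pow, PowerSeries.constantCoeff_X, zero_pow (by norm_num)]
        have hIX : In (Kf k f).toSubring ((PowerSeries.X : PowerSeries Om) ^ 2) := In.X.pow 2
        have hC : (1 + 2 * c) / 2 ∈ (Kf k f).toSubring := by
          rw [her]
          exact hrK
        exact (hIK.sub ((In.C hC).mul (hIφ.cs hIX hX2))) n
      · have h5 := uF_honda hO7 hC7 hR5 hD9 hB12 hE1 hE3 hE10 hKf hm hR hRC hP hσ hφ hFro hβ hV n
          (N0 := N0)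
        rw [her]
        exact h5
    have hTe := (ident hT0 hW0 hu0 hTne hE (by
      have := hT.diff
      exact this)).1
    refine ⟨fun n => ?_, hT0, hW0, ?_, ?_, hE⟩
    · rw [hTe]
      exact (hI n).2
    · rw [hT1]
      exact DI.UP.ne_zero hu
    · rw [hT1]
      exact (DI.UP.inv hu).1
  obtain ⟨A1, A2, A3, A4, A5, A6⟩ := key m β TA WA hm hβ hV hu hTA
  obtain ⟨B1, B2, B3, B4, B5, B6⟩ := key m' β' TB WB hm' hβ' hV' hu' hTB
  have h2V : (2 : Om)⁻¹ ∉ VPv P := by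
    intro h1
    have h3 : VP P (2 : Om)⁻¹ := h1
    have h4 := DI.MP.mul_left h3 hP.2.1
    rw [inv_mul_cancel₀ (two_ne_zero)] at h4
    exact DI.MP.one_not h4
  obtain ⟨ϖ, hϖ⟩ := tDisV Om (VPv P) K' h2V
  have hQ1 : Q1 ≠ 0 := by
    rw [← hQ]
    exact mul_ne_zero hQ2 hψ
  have h2O : (2 : Om) ∈ VPv P := hP.2.1.vp
  refine con (V := VPv P) (S := K'.toSubfield) hϖ h2V (a := aP a d) (b := bP a d) (m := 2 * a)
    haP.2 hbP.2 ((VPv P).mul_mem _ _ h2O ha.2) A1 B1 A2 B2 A3 B3 A4 A5 B4 B5 A6 B6 hQ1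
    (Q2 := PowerSeries.X ^ 2 * Q2) (mul_ne_zero (pow_ne_zero 2 PowerSeries.X_ne_zero) hQ2)
    (fun n => hQ1k n) ?_ vQ1 ?_ ?_
  · intro n
    rw [PowerSeries.coeff_X_pow_mul']
    split_ifs
    · exact hQ2k _
    · exact K'.toSubfield.zero_mem
  · intro n
    rw [PowerSeries.coeff_X_pow_mul']
    split_ifs
    · exact vQ2 _
    · exact DI.VP.zero
  · have e1 : 1 + 2 * (2 * a) = kO f (⊤ : Ideal (OO k)) := by
      rw [eK]
      ring
    rw [e1, ← hQ]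
    linear_combination Q2 ^ 2 * hrel

end Pool.Agent.DK
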