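import Pool.Agent.Lib.DK.IfaceF
import Pool.Agent.Lib.DK.R.Spec
import Pool.Agent.Lib.DK.O.O2
import Pool.Agent.Lib.DK.O.O4
import Pool.Agent.Lib.DK.O.O6

/-!
# Theorem DK, part F: the number `ϰ` (`S_Kap`)
-/

set_option autoImplicit false

open scoped Pointwise

noncomputable section

namespace Pool.Agent.DK

open Pool.Agent.MuZ Pool.Agent.FW NumberField
open Pool.Agent.DI (io ofC io_inj exists_io io_ofC ofC_io VP MP UP TP ex sqr sqr_sq kap)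

variable {k : ℕ}

/-- the polynomial `6 X² + (1 + 16 𝒟) X + 2 𝒟` at `1/f` -/
def nOk (f : ℕ) (b : Ideal (OO k)) : Om :=
  6 * xO b (1 / f) ^ 2 + (1 + 16 * dO b) * xO b (1 / f) + 2 * dO b

theorem fb_two_not [SqK k] {f : ℕ} {b : Ideal (OO k)} (hf : 3 ≤ f) (hb : PrI b f) :
    2 * (1 / f : ℂ) ∉ Lam b := by
  intro h
  have hf' : (f : ℂ) ≠ 0 := by
    have : f ≠ 0 := by omega
    exact_mod_cast this
  have h1 : (1 : OO k) ∈ b ⊔ Ideal.span {(f : OO k)} := by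
    unfold PrI at hb
    rw [hb]
    trivial
  obtain ⟨v, hv, w, hw, hvw⟩ := Submodule.mem_sup.1 h1
  obtain ⟨c, rfl⟩ := Ideal.mem_span_singleton.1 hw
  obtain ⟨u, hu⟩ := h v hv
  have h2 : (2 : OO k) * v = f * u := by
    apply toC_inj
    rw [toC_mul, toC_mul, toC_nat, toC_two, ← hu]
    field_simp
  have h3 : (f : OO k) ∣ 2 := by
    refine ⟨u + 2 * c, ?_⟩
    linear_combination h2 - 2 * hvw
  have h4 := ((nat_dvd_iff f (2 : OO k)).1 h3).1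
  have h5 : (2 : OO k).re = 2 := by
    have := re_nat (k := k) 2
    exact_mod_cast this
  rw [h5] at h4
  have h6 := Int.le_of_dvd (by norm_num) h4
  omega

theorem fb_not [SqK k] {f : ℕ} {b : Ideal (OO k)} (hf : 3 ≤ f) (hb : PrI b f) :
    (1 / f : ℂ) ∉ Lam b := fun h => fb_two_not hf hb (by rw [two_mul]; exact lam_add h h)

theorem tor_one_div {f : ℕ} (hf : 0 < f) : Tor k (1 / f : ℂ) := by
  have := tor_div (k := k) hf 1
  rwa [toC_one] at this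

/-- An odd number is a unit at a prime above `2`. -/
theorem odd_UP {P : Ideal ZZ} [P.IsPrime] (h2 : MP P 2) {n : ℕ} (hn : Odd n) : UP P (n : Om) := by
  obtain ⟨m, rfl⟩ := hn
  refine ⟨DI.VP.nat _, fun h => ?_⟩
  apply DI.MP.one_not (P := P)
  have h3 : MP P ((m : Om) * 2) := DI.MP.mul_left (DI.VP.nat m) h2
  have h4 := DI.MP.sub h h3
  have e : ((2 * m + 1 : ℕ) : Om) - (m : Om) * 2 = 1 := by
    push_cast
    ring
  rwa [e] at h4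

theorem AbP.not_AbPb {P : Ideal ZZ} (h : AbP k P) : ¬ AbPb k P := by
  intro h'
  have : P.IsPrime := h.1.1
  apply DI.MP.one_not (P := P)
  have h1 := DI.MP.add h.2.2 h'.2.2
  rwa [add_sub_cancel] at h1

/-- A multiple `v/f` which is `P`-primary is a lattice point. -/
private theorem Kap_qp [SqK k] {P : Ideal ZZ} [P.IsPrime] (h2 : MP P 2) {f : ℕ} (hf : Odd f)
    (hf0 : 0 < f) {b : Ideal (OO k)} (v : OO k) (h : Qp P b (toC v * (1 / f))) :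
    toC v * (1 / f) ∈ Lam b := by
  have h1 := h (f : OO k) 1 (by
    rw [toO_nat]
    exact (odd_UP h2 hf).2) (by
      rw [mul_one, toC_nat]
      have h3 := lam_mul v (one_div_lam b hf0)
      have e : toC v * ((f : ℂ) * (1 / f)) = (f : ℂ) * (toC v * (1 / f)) := by ring
      rwa [e] at h3)
  rwa [toC_one, one_mul] at h1

/-- `X(1/f)` is a unit at the primes above `𝔭`. -/
theorem xO_unit [SqK k] (hD1 : S_D1) (hD2 : S_D2) (hL6 : S_L6) {P : Ideal ZZ} (hP : AbP k P) {f : ℕ}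
    (hf : Odd f) (hf3 : 3 ≤ f) {b : Ideal (OO k)} (hb : FB f b) : UP P (xO b (1 / f)) := by
  have hf0 : 0 < f := by omega
  have : P.IsPrime := hP.1.1
  have hz : (1 / f : ℂ) ∉ Lam b := fb_not hf3 hb.cop
  have hq1 : ¬ Qp P b (1 / f : ℂ) := by
    intro h
    apply hz
    have h1 := Kap_qp hP.2.1 hf hf0 (b := b) 1 (by rwa [toC_one, one_mul])
    rwa [toC_one, one_mul] at h1
  obtain ⟨dadd, dlam, dmul, -, dqp, -, -⟩ := hD1 k b hb.ne P hP.1 hP.not_AbPb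
  have hS2 : 2 * ptS b ∈ Lam b := (hL6 k b hb.ne).2.2.1.2.1
  have hi1 : ¬ IK P b (1 / f + ptS b) := by
    intro h
    have h1 := dmul 2 _ h
    have h3 := dadd _ _ h1 (dlam _ (lam_neg hS2))
    have e : toC (2 : OO k) * (1 / f + ptS b) + -(2 * ptS b) = toC (2 : OO k) * (1 / f) := by
      rw [toC_two]
      ring
    rw [e] at h3
    have h4 := Kap_qp hP.2.1 hf hf0 2 (dqp _ h3)
    rw [toC_two] at h4
    exact fb_two_not hf3 hb.cop h4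
  obtain ⟨-, -, -, -, -, -, dU⟩ := hD2 k b hb.ne P hP
  exact dU _ (tor_one_div hf0) hq1 hi1

/-- `ϰ = W2/n²` -/
theorem kO_eq [SqK k] (hR5b : S_R5b) {f : ℕ} (hf : Odd f) (hf3 : 3 ≤ f) {b : Ideal (OO k)}
    (hb : FB f b) : nOk f b ≠ 0 ∧ fr f b ≠ 0 ∧ kO f b = W2 b (1 / f) / nOk f b ^ 2 ∧
      io (kO f b) = s2 b / fr f b ^ 2 := by
  obtain ⟨-, hn0, -, hfr, h⟩ := hR5b k f b hf hf3 hb.ne hb.cop
  have hn0' : nOk f b ≠ 0 := hn0
  have hion : io (nOk f b) ≠ 0 := fun h => hn0' (io_inj (by rw [h, map_zero]))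
  have h1 : s2 b / fr f b ^ 2 = io (W2 b (1 / f) / nOk f b ^ 2) := by
    rw [map_div₀, map_pow, div_eq_div_iff (pow_ne_zero 2 hfr) (pow_ne_zero 2 hion)]
    have h' : fr f b ^ 2 * io (W2 b (1 / f)) = s2 b * io (nOk f b) ^ 2 := h
    linear_combination -h'
  have h2 : kO f b = W2 b (1 / f) / nOk f b ^ 2 := by
    unfold kO
    rw [h1, ofC_io]
  exact ⟨hn0', hfr, h2, by rw [h2, h1]⟩

/-- `n` is `X` modulo `2`. -/
theorem nO_unit {P : Ideal ZZ} [P.IsPrime] (h2 : MP P 2) {x d : Om} (hx : UP P x)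
    (hd : VP P d) : UP P (6 * x ^ 2 + (1 + 16 * d) * x + 2 * d) := by
  refine DI.UP.congr hx ?_
  have e : 6 * x ^ 2 + (1 + 16 * d) * x + 2 * d - x = (3 * x ^ 2 + 8 * d * x + d) * 2 := by ring
  rw [e]
  refine DI.MP.mul_left ?_ h2
  have h3 : VP P (3 : Om) := by
    have := DI.VP.nat (P := P) 3
    exact_mod_cast this
  have h8 : VP P (8 : Om) := by
    have := DI.VP.nat (P := P) 8
    exact_mod_cast this
  exact DI.VP.add (DI.VP.add (DI.VP.mul h3 (DI.VP.pow hx.1 2))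
    (DI.VP.mul (DI.VP.mul h8 hd) hx.1)) hd

/-- the subring `V_P` -/
def VPs (P : Ideal ZZ) [P.IsPrime] : Subring Om where
  carrier := {x | VP P x}
  mul_mem' ha hb := DI.VP.mul ha hb
  one_mem' := DI.VP.one
  add_mem' ha hb := DI.VP.add ha hb
  zero_mem' := DI.VP.zero
  neg_mem' ha := DI.VP.neg ha

theorem VPs.lift {P : Ideal ZZ} [P.IsPrime] {x : Om} (h : VP P x) : ∃ y : VPs P, (y : Om) = x :=
  ⟨⟨x, h⟩, rfl⟩

theorem VPs.vp {P : Ideal ZZ} [P.IsPrime] (y : VPs P) : VP P (y : Om) := y.2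

@[simp, norm_cast]
theorem VPs.coe_ofNat {P : Ideal ZZ} [P.IsPrime] (n : ℕ) [n.AtLeastTwo] :
    (((no_index (OfNat.ofNat n)) : VPs P) : Om) = OfNat.ofNat n :=
  map_ofNat (VPs P).subtype n

/-- **`ϰ = 1` modulo `4`** -/
theorem kap_four {P : Ideal ZZ} [P.IsPrime] {x d i : VPs P} {K : Om}
    (hi : (6 * (x : Om) ^ 2 + (1 + 16 * d) * x + 2 * d) * i = 1)
    (hK : K = x * (x + 4 * d) * (4 * x + 1) * (i : Om) ^ 2) :
    K - 1 = 4 * (((x ^ 4 + d ^ 2 + 2 * (-(5 * x ^ 4 + x ^ 3 + 24 * d * x ^ 3 +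
      (5 * d + 32 * d ^ 2) * x ^ 2 + 8 * d ^ 2 * x + d ^ 2))) * i ^ 2 : VPs P) : Om) := by
  rw [hK]
  push_cast
  linear_combination ((6 * (x : Om) ^ 2 + (1 + 16 * d) * x + 2 * d) * i + 1) * hi

/-- the algebra of `e` modulo `4` -/
theorem kap_alg {A : Type} [CommRing A] {x d h : A} (hh : d * (1 + 4 * h) ^ 2 = h)
    {u v r s w R : A} (hu : u = 4 * h + 24 * h ^ 2 + 64 * h ^ 3 + 64 * h ^ 4)
    (hv : v = 3 * x ^ 4 + 2 * x ^ 3 + 4 * d * x ^ 2 + d * x + d ^ 2 +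
      4 * d * x * (2 * x ^ 2 + x + 2 * d))
    (hs : s = 2 * h + 4 * h ^ 2) (hr : r = d * x + s * x * (x + 4 * d))
    (hw : w = 12 * x ^ 2 * r + 24 * r ^ 2 + r + (x + 4 * h ^ 2 * (4 * x + 1)) * (x ^ 2 + 4 * r) +
      h ^ 2 * (4 * x + 8 * x ^ 2))
    (hR : R = u * x ^ 2 + v + 4 * u * v - w - 2 * x ^ 4 - d ^ 2 - (h + d) * d * (4 * h + 8 * h ^ 2)) :
    (1 + 4 * h) ^ 4 * (6 * x ^ 2 + (1 + 16 * d) * x + 2 * d) * (2 * x ^ 2 + x + 2 * d) -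
      (6 * ((1 + 4 * h) ^ 2 * (x * (x + 4 * d))) ^ 2 +
        (1 + 16 * h ^ 2) * ((1 + 4 * h) ^ 2 * (x * (x + 4 * d))) * (4 * x + 1) +
        2 * h ^ 2 * (4 * x + 1) ^ 2) = 2 * (x ^ 4 + d ^ 2) + 4 * R ∧
    6 * ((1 + 4 * h) ^ 2 * (x * (x + 4 * d))) ^ 2 +
        (1 + 16 * h ^ 2) * ((1 + 4 * h) ^ 2 * (x * (x + 4 * d))) * (4 * x + 1) +
        2 * h ^ 2 * (4 * x + 1) ^ 2 - (6 * x ^ 2 + (1 + 16 * d) * x + 2 * d) ^ 2 =
      2 * (3 * x ^ 4 + h ^ 2 + 2 * w - 2 * x * (3 * x ^ 2 + 8 * d * x + d) -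
        2 * (3 * x ^ 2 + 8 * d * x + d) ^ 2) := by
  subst hR hw hr hs hv hu
  constructor
  · linear_combination 2 * (h + d) * hh
  · ring

/-- `𝔭` is prime to `f` -/
theorem fb_pp [SqK k] {f : ℕ} (hf : Odd f) (hf3 : 3 ≤ f) : FB f (pp k) := by
  obtain ⟨-, -, -, -, hN, -, -, hne, -⟩ := sO4 sO2 k
  refine ⟨hne, ?_⟩
  obtain ⟨-, -, h3, -⟩ := sO6 sO2 k
  rw [h3 f (pp k) (by omega), hN]
  exact (Nat.coprime_two_left).2 hf

theorem fb_top [SqK k] (f : ℕ) : FB f (⊤ : Ideal (OO k)) := by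
  refine ⟨?_, ?_⟩
  · intro h
    have h1 : (1 : OO k) ∈ (⊥ : Ideal (OO k)) := by
      rw [← h]
      trivial
    exact one_ne_zero ((Ideal.mem_bot).1 h1)
  · unfold PrI
    exact top_sup_eq _

theorem fb_mul [SqK k] {f : ℕ} {a b : Ideal (OO k)} (ha : FB f a) (hb : FB f b) : FB f (a * b) := by
  refine ⟨mul_ne_zero ha.ne hb.ne, ?_⟩
  obtain ⟨h1, -⟩ := sO6 sO2 k
  exact (h1 f a b).2 ⟨ha.cop, hb.cop⟩

/-- the formula for `e = 2 fr(1)/fr(𝔭)` -/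
theorem e_eq [SqK k] (hB1 : S_B1) (hB6 : S_B6) (hB12 : S_B12) (hR1 : S_R1) (hR4 : S_R4)
    (hR5 : S_R5) {f : ℕ} (hf : Odd f) (hf3 : 3 ≤ f) :
    dO (⊤ : Ideal (OO k)) * (1 + 4 * tO (pp k)) ^ 2 = tO (pp k) ∧
    tO (pp k) ^ 2 = dO (pp k) ∧
    xO (pp k) (1 / f) * (4 * xO (⊤ : Ideal (OO k)) (1 / f) + 1) = (1 + 4 * tO (pp k)) ^ 2 *
      (xO (⊤ : Ideal (OO k)) (1 / f) * (xO (⊤ : Ideal (OO k)) (1 / f) +
        4 * dO (⊤ : Ideal (OO k)))) ∧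
    2 * rO f (pp k) ⊤ * (nOk f (pp k) * (4 * xO (⊤ : Ideal (OO k)) (1 / f) + 1) ^ 2) =
      (1 + 4 * tO (pp k)) ^ 4 * nOk f (⊤ : Ideal (OO k)) *
        (2 * xO (⊤ : Ideal (OO k)) (1 / f) ^ 2 + xO (⊤ : Ideal (OO k)) (1 / f) +
          2 * dO (⊤ : Ideal (OO k))) := by
  have hT := fb_top (k := k) f
  have hp := fb_pp (k := k) hf hf3
  have hm : pp k * ⊤ = pp k := Ideal.mul_top _
  have hz : (1 / f : ℂ) ∉ Lam (pp k) := fb_not hf3 hp.cop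
  obtain ⟨hg, hD, hs, h6⟩ := hB6 k ⊤ hT.ne
  rw [hm] at hg hD hs h6
  obtain ⟨hX, -, hW⟩ := h6 _ hz
  obtain ⟨hDT, -⟩ := hR1 k ⊤ hT.ne
  obtain ⟨hDp, htp⟩ := hR1 k (pp k) hp.ne
  have hXT := hR4.1 k ⊤ hT.ne _ (tor_one_div (k := k) (f := f) (by omega))
  have hXp := hR4.1 k (pp k) hp.ne _ (tor_one_div (k := k) (f := f) (by omega))
  obtain ⟨-, -, hs2, -, -, -, -, -, -, -, -, -, hth⟩ := hB1 k (pp k) hp.ne
  obtain ⟨hwT, hfrT, -⟩ := hB12 k f ⊤ hf hf3 hT.ne hT.cop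
  obtain ⟨hwp, hfrp, -⟩ := hB12 k f (pp k) hf hf3 hp.ne hp.cop
  obtain ⟨hfp0, hr, -⟩ := hR5 k f ⊤ (pp k) ⊤ hf hf3 hT.ne hp.ne hT.ne
    (by unfold PrI; exact top_sup_eq _) (by unfold PrI; exact top_sup_eq _) hp.cop hT.cop
  have e1 : dO (⊤ : Ideal (OO k)) * (1 + 4 * tO (pp k)) ^ 2 = tO (pp k) := by
    apply io_inj
    simp only [map_mul, map_pow, map_add, map_one, map_ofNat, hDT, htp]
    exact hD
  have e2 : tO (pp k) ^ 2 = dO (pp k) := by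
    apply io_inj
    simp only [map_pow, hDp, htp]
    exact hth
  have e3 : xO (pp k) (1 / f) * (4 * xO (⊤ : Ideal (OO k)) (1 / f) + 1) =
      (1 + 4 * tO (pp k)) ^ 2 * (xO (⊤ : Ideal (OO k)) (1 / f) *
        (xO (⊤ : Ideal (OO k)) (1 / f) + 4 * dO (⊤ : Ideal (OO k)))) := by
    apply io_inj
    simp only [map_mul, map_pow, map_add, map_one, map_ofNat, hDT, htp, hXT, hXp]
    exact hX
  refine ⟨e1, e2, e3, ?_⟩
  apply io_inj
  unfold nOk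
  simp only [map_mul, map_pow, map_add, map_one, map_ofNat, hDT, hDp, htp, hXT, hXp, hr]
  have h7 : s2 (pp k) ^ 2 * wdC (⊤ : Ideal (OO k)) (1 / f) * fr f (pp k) ≠ 0 :=
    mul_ne_zero (mul_ne_zero (pow_ne_zero 2 hs2) hwT) hfp0
  apply mul_right_cancel₀ h7
  have h8 : fr f (⊤ : Ideal (OO k)) / fr f (pp k) * fr f (pp k) = fr f (⊤ : Ideal (OO k)) :=
    div_mul_cancel₀ _ hfp0
  generalize fr f (⊤ : Ideal (OO k)) / fr f (pp k) = e at *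
  generalize fr f (⊤ : Ideal (OO k)) = F at *
  generalize fr f (pp k) = F' at *
  generalize wdC (⊤ : Ideal (OO k)) (1 / f) = w at *
  generalize wdC (pp k) (1 / f) = w' at *
  generalize s2 (⊤ : Ideal (OO k)) = s at *
  generalize s2 (pp k) = s' at *
  generalize XC (⊤ : Ideal (OO k)) (1 / f) = X at *
  generalize XC (pp k) (1 / f) = X' at *
  generalize DC (⊤ : Ideal (OO k)) = D at *
  generalize DC (pp k) = D' at *
  generalize ThC (pp k) = h at *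
  linear_combination 2 * (6 * X' ^ 2 + (1 + 16 * D') * X' + 2 * D') * (4 * X + 1) ^ 2 * s' ^ 2 *
    (w * h8 + hfrT) - 2 * s ^ 2 * (6 * X ^ 2 + (1 + 16 * D) * X + 2 * D) * (4 * X + 1) ^ 2 * hfrp +
    2 * s ^ 2 * (6 * X ^ 2 + (1 + 16 * D) * X + 2 * D) * F' * hW -
    ((1 + 4 * h) ^ 2 * s' + 4 * s) * (6 * X ^ 2 + (1 + 16 * D) * X + 2 * D) *
      (2 * X ^ 2 + X + 2 * D) * F' * w * hs

/-- **S_Kap.** -/
theorem tKap (hB1 : S_B1) (hB6 : S_B6) (hB12 : S_B12) (hR1 : S_R1) (hR2 : S_R2) (hR4 : S_R4)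
    (hR5 : S_R5) (hR5b : S_R5b) (hD1 : S_D1) (hD2 : S_D2) (hL6 : S_L6) (hE1 : S_E1) : S_Kap := by
  intro k _ f hf hf3
  have hf0 : 0 < f := by omega
  have hG : ∀ b : Ideal (OO k), FB f b → ∀ (τ : Gal(Om/ℚ)) (a : Ideal (OO k)), Psi τ f a →
      τ (kO f b) = kO f (a * b) := by
    intro b hb τ a hτ
    have ha : FB f a := ⟨hτ.ne, hτ.cop⟩
    obtain ⟨-, -, h1, -⟩ := kO_eq hR5b hf hf3 hb
    obtain ⟨-, -, h2, -⟩ := kO_eq hR5b hf hf3 (fb_mul ha hb)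
    have hx := hτ.xx b hb.ne (1 / f) (one_div_lam b hf0)
    have hd := hτ.dd b hb.ne
    rw [h1, h2]
    unfold W2 nOk
    simp only [map_div₀, map_mul, map_pow, map_add, map_one, map_ofNat, hx, hd]
  refine ⟨fun b hb => ?_, fun P hP => ?_⟩
  · obtain ⟨hn0, hfr, hk1, hk2⟩ := kO_eq hR5b hf hf3 hb
    refine ⟨hk2, ?_, hG b hb, ?_⟩
    · intro τ _ a hτ ha
      obtain ⟨-, -, h3, -⟩ := hE1 k f hf0
      have h4 := hG b hb τ ⊤ (h3 τ a ⊤ hτ ha)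
      rwa [Ideal.top_mul] at h4
    · intro P hP
      have : P.IsPrime := hP.1.1
      have hx := xO_unit hD1 hD2 hL6 hP hf hf3 hb
      have hd : UP P (dO b) := ((hR2 k b hb.ne P hP.1).2.1 hP).1
      have hn : UP P (nOk f b) := nO_unit hP.2.1 hx hd.1
      obtain ⟨x, ex⟩ := VPs.lift hx.1
      obtain ⟨d, ed⟩ := VPs.lift hd.1
      obtain ⟨i, ei⟩ := VPs.lift (DI.UP.inv hn).1
      have hi : (6 * (x : Om) ^ 2 + (1 + 16 * d) * x + 2 * d) * i = 1 := by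
        rw [ex, ed, ei]
        exact mul_inv_cancel₀ hn0
      have hK : kO f b = x * (x + 4 * d) * (4 * x + 1) * (i : Om) ^ 2 := by
        rw [hk1, ex, ed, ei, inv_pow, div_eq_mul_inv]
        rfl
      exact ⟨_, VPs.vp _, kap_four hi hK⟩
  · have : P.IsPrime := hP.1.1
    have hT := fb_top (k := k) f
    have hp := fb_pp (k := k) hf hf3
    obtain ⟨hn0, hfr, hk1, hk2⟩ := kO_eq hR5b hf hf3 hT
    obtain ⟨hn0', hfr', hk1', hk2'⟩ := kO_eq hR5b hf hf3 hp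
    obtain ⟨e1, e2, e3, e4⟩ := e_eq (k := k) hB1 hB6 hB12 hR1 hR4 hR5 hf hf3
    have hx := xO_unit hD1 hD2 hL6 hP hf hf3 hT
    have hd : UP P (dO (⊤ : Ideal (OO k))) := ((hR2 k _ hT.ne P hP.1).2.1 hP).1
    have hn : UP P (nOk f (⊤ : Ideal (OO k))) := nO_unit hP.2.1 hx hd.1
    have hx' := xO_unit hD1 hD2 hL6 hP hf hf3 hp
    obtain ⟨hd', ht', -⟩ := (hR2 k _ hp.ne P hP.1).2.1 hP
    have hn' : UP P (nOk f (pp k)) := nO_unit hP.2.1 hx' hd'.1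
    have h4X : UP P (4 * xO (⊤ : Ideal (OO k)) (1 / f) + 1) := by
      refine DI.UP.congr DI.UP.one ?_
      have e : 4 * xO (⊤ : Ideal (OO k)) (1 / f) + 1 - 1 =
        2 * xO (⊤ : Ideal (OO k)) (1 / f) * 2 := by ring
      rw [e]
      refine DI.MP.mul_left (DI.VP.mul ?_ hx.1) hP.2.1
      exact hP.2.1.vp
    have hDe := DI.UP.mul hn' (DI.UP.pow h4X 2)
    obtain ⟨x, ex⟩ := VPs.lift hx.1
    obtain ⟨d, ed⟩ := VPs.lift hd.1
    obtain ⟨h, eh⟩ := VPs.lift ht'.1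
    obtain ⟨i, ei⟩ := VPs.lift (DI.UP.inv hn).1
    obtain ⟨j, ej⟩ := VPs.lift (DI.UP.inv hDe).1
    have hi : (6 * (x : Om) ^ 2 + (1 + 16 * d) * x + 2 * d) * i = 1 := by
      rw [ex, ed, ei]
      exact mul_inv_cancel₀ hn0
    have hK : kO f (⊤ : Ideal (OO k)) = x * (x + 4 * d) * (4 * x + 1) * (i : Om) ^ 2 := by
      rw [hk1, ex, ed, ei, inv_pow, div_eq_mul_inv]
      rfl
    have hK4 := kap_four hi hK
    -- the denominator of `e`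
    have hDe2 : nOk f (pp k) * (4 * xO (⊤ : Ideal (OO k)) (1 / f) + 1) ^ 2 =
        6 * ((1 + 4 * (h : Om)) ^ 2 * (x * (x + 4 * d))) ^ 2 +
        (1 + 16 * (h : Om) ^ 2) * ((1 + 4 * (h : Om)) ^ 2 * (x * (x + 4 * d))) * (4 * x + 1) +
        2 * (h : Om) ^ 2 * (4 * x + 1) ^ 2 := by
      rw [ex, ed, eh, ← e3, e2]
      unfold nOk
      ring
    have hj : nOk f (pp k) * (4 * xO (⊤ : Ideal (OO k)) (1 / f) + 1) ^ 2 * j = 1 := by
      rw [ej]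
      exact mul_inv_cancel₀ (DI.UP.ne_zero hDe)
    have he : 2 * rO f (pp k) ⊤ * (nOk f (pp k) * (4 * xO (⊤ : Ideal (OO k)) (1 / f) + 1) ^ 2) =
        (1 + 4 * (h : Om)) ^ 4 * (6 * (x : Om) ^ 2 + (1 + 16 * d) * x + 2 * d) *
          (2 * (x : Om) ^ 2 + x + 2 * d) := by
      rw [ex, ed, eh]
      exact e4
    rw [hDe2] at hj he
    have hh : (d : Om) * (1 + 4 * (h : Om)) ^ 2 = h := by
      rw [ed, eh]
      exact e1
    have hh' : d * (1 + 4 * h) ^ 2 = h := Subtype.ext (by push_cast; exact hh)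
    obtain ⟨u, hu⟩ : ∃ u : VPs P, u = 4 * h + 24 * h ^ 2 + 64 * h ^ 3 + 64 * h ^ 4 := ⟨_, rfl⟩
    obtain ⟨v, hv⟩ : ∃ v : VPs P, v = 3 * x ^ 4 + 2 * x ^ 3 + 4 * d * x ^ 2 + d * x + d ^ 2 +
      4 * d * x * (2 * x ^ 2 + x + 2 * d) := ⟨_, rfl⟩
    obtain ⟨s, hs⟩ : ∃ s : VPs P, s = 2 * h + 4 * h ^ 2 := ⟨_, rfl⟩
    obtain ⟨r, hr⟩ : ∃ r : VPs P, r = d * x + s * x * (x + 4 * d) := ⟨_, rfl⟩
    obtain ⟨w, hw⟩ : ∃ w : VPs P, w = 12 * x ^ 2 * r + 24 * r ^ 2 + r +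
      (x + 4 * h ^ 2 * (4 * x + 1)) * (x ^ 2 + 4 * r) + h ^ 2 * (4 * x + 8 * x ^ 2) := ⟨_, rfl⟩
    obtain ⟨R, hR⟩ : ∃ R : VPs P, R = u * x ^ 2 + v + 4 * u * v - w - 2 * x ^ 4 - d ^ 2 -
      (h + d) * d * (4 * h + 8 * h ^ 2) := ⟨_, rfl⟩
    obtain ⟨a1, a2⟩ := kap_alg hh' hu hv hs hr hw hR
    have b1 := congrArg (Subtype.val) a1
    have b2 := congrArg (Subtype.val) a2
    push_cast at b1 b2
    have he1 : 2 * rO f (pp k) ⊤ - 1 = 2 * (((x ^ 4 + d ^ 2 + 2 * R) * j : VPs P) : Om) := by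
      push_cast
      linear_combination (j : Om) * he + (j : Om) * b1 - (2 * rO f (pp k) ⊤ - 1) * hj
    refine ⟨⟨_, VPs.vp _, he1⟩, ?_, ?_⟩
    · refine ⟨(((x ^ 4 + d ^ 2) * (3 * x ^ 4 + h ^ 2 + 2 * w -
          2 * x * (3 * x ^ 2 + 8 * d * x + d) - 2 * (3 * x ^ 2 + 8 * d * x + d) ^ 2) +
          (-(5 * x ^ 4 + x ^ 3 + 24 * d * x ^ 3 + (5 * d + 32 * d ^ 2) * x ^ 2 + 8 * d ^ 2 * x +
            d ^ 2)) * (6 * ((1 + 4 * h) ^ 2 * (x * (x + 4 * d))) ^ 2 +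
            (1 + 16 * h ^ 2) * ((1 + 4 * h) ^ 2 * (x * (x + 4 * d))) * (4 * x + 1) +
            2 * h ^ 2 * (4 * x + 1) ^ 2) - R * (6 * x ^ 2 + (1 + 16 * d) * x + 2 * d) ^ 2) *
          i ^ 2 * j : VPs P), VPs.vp _, ?_⟩
      rw [hK4, he1, mul_div_cancel_left₀ _ (by norm_num : (4 : Om) ≠ 0),
        mul_div_cancel_left₀ _ (by norm_num : (2 : Om) ≠ 0)]
      push_cast
      linear_combination (i : Om) ^ 2 * j * ((x : Om) ^ 4 + d ^ 2) * b2 -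
        ((x : Om) ^ 4 + d ^ 2 + 2 * (-(5 * x ^ 4 + x ^ 3 + 24 * d * x ^ 3 +
          (5 * d + 32 * d ^ 2) * x ^ 2 + 8 * d ^ 2 * x + d ^ 2))) * i ^ 2 * hj +
        ((x : Om) ^ 4 + d ^ 2 + 2 * R) * j *
          ((6 * (x : Om) ^ 2 + (1 + 16 * d) * x + 2 * d) * i + 1) * hi
    · have h1 := (hB6 k ⊤ hT.ne).2.2.1
      rw [Ideal.mul_top] at h1
      obtain ⟨-, htp⟩ := hR1 k (pp k) hp.ne
      obtain ⟨-, hr, -⟩ := hR5 k f ⊤ (pp k) ⊤ hf hf3 hT.ne hp.ne hT.ne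
        (by unfold PrI; exact top_sup_eq _) (by unfold PrI; exact top_sup_eq _) hp.cop hT.cop
      apply io_inj
      simp only [map_mul, map_pow, map_add, map_one, map_ofNat, hk2, hk2', htp, hr]
      field_simp
      linear_combination h1

end Pool.Agent.DK
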