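import Pool.Agent.Lib.DK.FH.Kap
import Pool.Agent.Lib.DK.O.O3

/-!
# Theorem DK, part F: the coefficients `cM` (homogeneity, the prime `𝔭`, integrality)
-/

set_option autoImplicit false

open scoped Pointwise

noncomputable section

namespace Pool.Agent.DK

open Pool.Agent.MuZ Pool.Agent.FW NumberField
open Pool.Agent.DI (io ofC io_inj exists_io io_ofC ofC_io VP MP UP TP ex sqr sqr_sq kap)

variable {k : ℕ}

theorem NI_mem [SqK k] (a : Ideal (OO k)) : (NI a : OO k) ∈ a := by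
  obtain ⟨-, -, h, -⟩ := sO3 sO2 k
  have h2 : a * cjI a = sp (NI a : OO k) := (h a).2.2
  have h1 : (NI a : OO k) ∈ a * cjI a := by
    rw [h2]
    exact Ideal.mem_span_singleton_self _
  have h3 : a * cjI a ≤ a := Ideal.mul_le_left
  exact h3 h1

theorem NI_mul [SqK k] (a b : Ideal (OO k)) : NI (a * b) = NI a * NI b := (sO2 k).2.2.2.2.1 a b

theorem NI_ne [SqK k] {a : Ideal (OO k)} (h : a ≠ ⊥) : NI a ≠ 0 := fun h1 =>
  h (((sO2 k).2.2.2.2.2.1 a).1 h1)

theorem NI_odd [SqK k] {a : Ideal (OO k)} (h : PrI a 2) : Odd (NI a) := by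
  obtain ⟨-, -, h3, -⟩ := sO6 sO2 k
  exact Nat.coprime_two_right.1 ((h3 2 a two_pos).1 h)

theorem one_lam (b : Ideal (OO k)) : (1 : ℂ) ∈ Lam b := fun v _ => ⟨v, mul_one _⟩

theorem toC_lam [SqK k] (b : Ideal (OO k)) (u : OO k) : toC u ∈ Lam b := by
  have := lam_mul u (one_lam b)
  rwa [mul_one] at this

/-- an element of `O` with odd real part is a unit at the primes above `𝔭` -/
theorem pp_unit [SqK k] {P : Ideal ZZ} (hP : AbP k P) {u : OO k} (hu : ¬ (2 : ℤ) ∣ u.re) :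
    UP P (toO u) := by
  have : P.IsPrime := hP.1.1
  refine ⟨toO_VP u, fun h => ?_⟩
  rw [toO_apply] at h
  have h1 := DI.MP.sub h (DI.MP.mul_left (DI.VP.int u.im) hP.2.2)
  rw [add_sub_cancel_right] at h1
  obtain ⟨m, hm⟩ : ∃ m : ℤ, u.re = 2 * m + 1 := by
    rcases Int.even_or_odd u.re with h2 | h2
    · exact absurd h2.two_dvd hu
    · exact h2
  have h3 : MP P ((m : Om) * 2) := DI.MP.mul_left (DI.VP.int m) hP.2.1
  have h4 := DI.MP.sub h1 h3
  apply DI.MP.one_not (P := P)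
  have e : (u.re : Om) - (m : Om) * 2 = 1 := by
    rw [hm]
    push_cast
    ring
  rwa [e] at h4

theorem lam_odd [SqK k] {b : Ideal (OO k)} {z : ℂ} {n : ℕ} (hn : Odd n) (h1 : (n : ℂ) * z ∈ Lam b)
    (h2 : 2 * z ∈ Lam b) : z ∈ Lam b := by
  obtain ⟨m, rfl⟩ := hn
  have h3 := lam_sub h1 (lam_nat m h2)
  have e : ((2 * m + 1 : ℕ) : ℂ) * z - (m : ℂ) * (2 * z) = z := by
    push_cast
    ring
  rwa [e] at h3

/-- `z ∈ Lam (a b)`: `N(a) z ∈ Lam b` -/
theorem lam_NI [SqK k] {a b : Ideal (OO k)} {z : ℂ} (h : z ∈ Lam (a * b)) :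
    (NI a : ℂ) * z ∈ Lam b := by
  have h1 := lam_prod.1 h _ (NI_mem a)
  rwa [toC_nat] at h1

theorem two_mem_pp : (2 : OO k) ∈ pp k := Ideal.subset_span (by simp)

theorem wI_mem_pp : wI k ∈ pp k := Ideal.subset_span (by simp)

/-- the elements of `vN f (m b) n` -/
theorem vN_one [SqK k] (hC7 : S_C7) {f : ℕ} {m b : Ideal (OO k)} (hm : FM f m) (hb : FB f b)
    {n : ℕ} {v : ℂ} (hv : v ∈ vN f (m * b) n) : v ≠ 0 ∧ ∃ u : OO k, u ≠ 0 ∧
      toC u = NI (m * b) * (f * v) ∧ Nm u = NI (m * b) * n ∧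
      v⁻¹ = io ((f : Om) * NI (m * b) / toO u) := by
  obtain ⟨-, h1, h2, -⟩ := hC7 k f m b hm hb
  obtain ⟨h3, h4⟩ := (h1 n v).1 hv
  have hf0 : (f : ℂ) ≠ 0 := by
    have := hm.three
    have : f ≠ 0 := by omega
    exact_mod_cast this
  have hN0 : (NI (m * b) : ℂ) ≠ 0 := by
    exact_mod_cast NI_ne (mul_ne_zero hm.ne hb.ne)
  have hv0 : v ≠ 0 := by
    rintro rfl
    have h5 : n = 0 := by
      rw [norm_zero] at h4
      have : (n : ℝ) = 0 := by rw [← h4]; ring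
      exact_mod_cast this
    rw [h5, h2] at hv
    exact absurd hv (Finset.notMem_empty _)
  have h6 : (f : ℂ) * v ∈ Lam (m * b) := by
    have h7 := lam_add (lam_nat f h3) (one_lam (m * b))
    have e : (f : ℂ) * (v - 1 / f) + 1 = f * v := by
      field_simp
      ring
    rwa [e] at h7
  obtain ⟨u, hu⟩ := h6 _ (NI_mem (m * b))
  rw [toC_nat] at hu
  have hu0 : u ≠ 0 := by
    rintro rfl
    rw [toC_zero] at hu
    exact mul_ne_zero hN0 (mul_ne_zero hf0 hv0) hu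
  refine ⟨hv0, u, hu0, hu.symm, ?_, ?_⟩
  · have h8 : ((Nm u : ℤ) : ℝ) = NI (m * b) * n := by
      rw [Nm_norm, ← hu, norm_mul, norm_mul, ← h4]
      rw [Complex.norm_natCast, Complex.norm_natCast]
      ring
    exact_mod_cast h8
  · rw [map_div₀, map_mul, map_natCast, map_natCast, io_toO, ← hu]
    field_simp

theorem ofC_inv [SqK k] (hC7 : S_C7) {f : ℕ} {m b : Ideal (OO k)} (hm : FM f m) (hb : FB f b)
    {n : ℕ} {v : ℂ} (hv : v ∈ vN f (m * b) n) : io (ofC v⁻¹) = v⁻¹ ∧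
      ∀ τ ∈ GK k, τ (ofC v⁻¹) = ofC v⁻¹ := by
  obtain ⟨-, u, -, -, -, h⟩ := vN_one hC7 hm hb hv
  rw [h, ofC_io]
  refine ⟨rfl, fun τ hτ => ?_⟩
  rw [map_div₀, map_mul, map_natCast, map_natCast, GK_toO hτ]

open Classical in
/-- the coefficient as an element of `Om` -/
theorem ofC_cM [SqK k] (hC7 : S_C7) {f : ℕ} {m b : Ideal (OO k)} (hm : FM f m) (hb : FB f b)
    (n : ℕ) : ofC (cM f m b n) = ∑ v ∈ vN f (m * b) n,
      (if v - 1 / f ∈ Lam b then (1 - NI m : Om) else 1) * ofC v⁻¹ ∧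
    io (ofC (cM f m b n)) = cM f m b n := by
  have h : cM f m b n = io (∑ v ∈ vN f (m * b) n,
      (if v - 1 / f ∈ Lam b then (1 - NI m : Om) else 1) * ofC v⁻¹) := by
    unfold cM
    rw [map_sum]
    refine Finset.sum_congr rfl fun v hv => ?_
    rw [map_mul, (ofC_inv hC7 hm hb hv).1]
    congr 1
    split_ifs
    · rw [map_sub, map_one, map_natCast]
    · rw [map_one]
  rw [h, ofC_io]
  exact ⟨rfl, rfl⟩

/-- the coefficients are in `K` -/
theorem GK_cM [SqK k] (hC7 : S_C7) {f : ℕ} {m b : Ideal (OO k)} (hm : FM f m) (hb : FB f b)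
    (n : ℕ) {τ : Gal(Om/ℚ)} (hτ : τ ∈ GK k) : τ (ofC (cM f m b n)) = ofC (cM f m b n) := by
  classical
  rw [(ofC_cM hC7 hm hb n).1, map_sum]
  refine Finset.sum_congr rfl fun v hv => ?_
  rw [map_mul, (ofC_inv hC7 hm hb hv).2 τ hτ]
  congr 1
  split_ifs
  · rw [map_sub, map_one, map_natCast]
  · rw [map_one]

/-- homogeneity -/
theorem cM_sp [SqK k] (hC7 : S_C7) {f : ℕ} {m b : Ideal (OO k)} (hm : FM f m) (hb : FB f b)
    {α : OO k} (hα : α ≠ 0) (h1 : (f : OO k) ∣ α - 1) (hαb : FB f (sp α * b)) (n : ℕ) :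
    cM f m (sp α * b) n = toC α * cM f m b n := by
  classical
  have hf0 : (f : ℂ) ≠ 0 := by
    have := hm.three
    have : f ≠ 0 := by omega
    exact_mod_cast this
  have hα0 : toC α ≠ 0 := toC_ne hα
  obtain ⟨c, hc⟩ := h1
  have hc' : toC α = 1 + f * toC c := by
    have h2 := congrArg toC hc
    rw [toC_sub, toC_one, toC_mul, toC_nat] at h2
    linear_combination h2
  obtain ⟨-, hv1, -⟩ := hC7 k f m b hm hb
  obtain ⟨-, hv2, -⟩ := hC7 k f m (sp α * b) hm hαb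
  have key : ∀ (v : ℂ) (b' : Ideal (OO k)), v - 1 / f ∈ Lam (sp α * b') ↔
      toC α * v - 1 / f ∈ Lam b' := by
    intro v b'
    rw [lam_sp]
    have e : toC α * v - 1 / f = toC c + toC α * (v - 1 / f) := by
      rw [mul_sub, hc']
      field_simp
      ring
    rw [e, lam_add_left_iff (toC_lam b' c)]
  have hmem : ∀ v : ℂ, v ∈ vN f (m * (sp α * b)) n ↔ toC α * v ∈ vN f (m * b) n := by
    intro v
    have e1 : m * (sp α * b) = sp α * (m * b) := by ring
    rw [hv1, hv2, e1, key, norm_mul, NI_mul (sp α)]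
    have e2 : ((NI (sp α) : ℕ) : ℝ) = ‖toC α‖ ^ 2 := by
      rw [← Nm_norm, ← (sO2 k).2.2.2.1 α]
      push_cast
      rfl
    push_cast
    rw [e2]
    constructor
    · rintro ⟨h3, h4⟩
      exact ⟨h3, by rw [← h4]; ring⟩
    · rintro ⟨h3, h4⟩
      exact ⟨h3, by rw [← h4]; ring⟩
  unfold cM
  rw [Finset.mul_sum]
  refine Finset.sum_nbij' (fun v => toC α * v) (fun v => (toC α)⁻¹ * v) ?_ ?_ ?_ ?_ ?_
  · intro v hv
    exact (hmem v).1 hv
  · intro v hv
    rw [hmem, mul_inv_cancel_left₀ hα0]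
    exact hv
  · intro v _
    exact inv_mul_cancel_left₀ hα0 v
  · intro v _
    exact mul_inv_cancel_left₀ hα0 v
  · intro v _
    rw [if_congr (key v b) rfl rfl, mul_inv]
    field_simp

/-- the class function -/
theorem cM_ray [SqK k] (hC7 : S_C7) (hB12 : S_B12) (hR5 : S_R5) {f : ℕ} {m b b' : Ideal (OO k)}
    (hm : FM f m) (hb : FB f b) (hb' : FB f b') (h : Ray f b b') (n : ℕ) :
    rO f b ⊤ * ofC (cM f m b n) = rO f b' ⊤ * ofC (cM f m b' n) := by
  obtain ⟨α, α', -, -, hc, hc', hd, he⟩ := h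
  obtain ⟨β, hβ, hαβ⟩ := cop_inv hc
  have hα'β : (f : OO k) ∣ α' * β - 1 := by
    have e : α' * β - 1 = (α * β - 1) - (α - α') * β := by ring
    rw [e]
    exact dvd_sub hαβ (hd.mul_right β)
  have hne : ∀ γ : OO k, (f : OO k) ∣ γ - 1 → γ ≠ 0 := by
    rintro γ hγ rfl
    rw [zero_sub, dvd_neg] at hγ
    have h4 := ((nat_dvd_iff f (1 : OO k)).1 hγ).1
    rw [re_one] at h4
    have h6 := Int.le_of_dvd (by norm_num) h4
    have := hm.three
    omega
  have hsp : sp (α * β) * b = sp (α' * β) * b' := by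
    have e1 : sp (α * β) = sp α * sp β := by
      rw [Ideal.span_singleton_mul_span_singleton]
    have e2 : sp (α' * β) = sp α' * sp β := by
      rw [Ideal.span_singleton_mul_span_singleton]
    rw [e1, e2, mul_right_comm, he, mul_right_comm]
  have hFB : ∀ γ : OO k, (f : OO k) ∣ γ - 1 → ∀ b : Ideal (OO k), FB f b → FB f (sp γ * b) := by
    intro γ hγ b hb
    refine fb_mul ⟨?_, ?_⟩ hb
    · rw [Ne, Ideal.span_singleton_eq_bot]
      exact hne γ hγ
    · obtain ⟨-, -, -, h4, -⟩ := sO6 sO2 k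
      have := hm.three
      rw [h4 f γ (by omega)]
      refine cop_congr ?_ (cop_one f)
      rw [← dvd_neg]
      have e : -(1 - γ) = γ - 1 := by ring
      rwa [e]
  have hfrm : ∀ γ : OO k, (f : OO k) ∣ γ - 1 → ∀ b : Ideal (OO k), FB f b →
      io (rO f b ⊤ * ofC (cM f m b n)) =
        fr f (⊤ : Ideal (OO k)) / fr f (sp γ * b) * cM f m (sp γ * b) n := by
    intro γ hγ b hb
    have hT := fb_top (k := k) f
    obtain ⟨hfr0, hr, -⟩ := hR5 k f ⊤ b ⊤ hm.odd hm.three hT.ne hb.ne hT.ne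
      (by unfold PrI; exact top_sup_eq _) (by unfold PrI; exact top_sup_eq _) hb.cop hT.cop
    obtain ⟨-, -, h5, -⟩ := hB12 k f b hm.odd hm.three hb.ne hb.cop
    rw [map_mul, hr, (ofC_cM hC7 hm hb n).2, cM_sp hC7 hm hb (hne γ hγ) hγ (hFB γ hγ b hb),
      h5 γ (hne γ hγ) hγ]
    have h6 := toC_ne (hne γ hγ)
    field_simp
  apply io_inj
  rw [hfrm _ hαβ b hb, hfrm _ hα'β b' hb', hsp]

end Pool.Agent.DK
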