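import Pool.Agent.Lib.DK.FH.Co2
import Pool.Agent.Lib.DI.F4.Bas

/-!
# Theorem DK, part F: the hypothesis of Honda's argument for the series `uF`
-/

set_option autoImplicit false

open scoped Pointwise

noncomputable section

namespace Pool.Agent.DK

open Pool.Agent.MuZ Pool.Agent.FW NumberField
open Pool.Agent.DI (io ofC io_inj exists_io io_ofC ofC_io VP MP UP TP ex sqr sqr_sq kap)

variable {k : ℕ}

/-- the coefficients of `f(X ^ 2)` -/
private theorem UF_cs (f : PowerSeries Om) (n : ℕ) :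
    PowerSeries.coeff n (DI.F4.cs f (PowerSeries.X ^ 2)) =
      ∑ d ∈ Finset.range (n + 1), PowerSeries.coeff d f * (if n = 2 * d then 1 else 0) := by
  have hX : PowerSeries.constantCoeff ((PowerSeries.X : PowerSeries Om) ^ 2) = 0 := by
    rw [map_pow, PowerSeries.constantCoeff_X, zero_pow (by norm_num)]
  rw [DI.F4.coeff_cs hX]
  refine Finset.sum_congr rfl fun d _ => ?_
  rw [← pow_mul, PowerSeries.coeff_X_pow]

theorem UF_even (f : PowerSeries Om) (m : ℕ) :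
    PowerSeries.coeff (2 * m) (DI.F4.cs f (PowerSeries.X ^ 2)) = PowerSeries.coeff m f := by
  rw [UF_cs, Finset.sum_eq_single m]
  · rw [if_pos rfl, mul_one]
  · intro d _ hd
    rw [if_neg (by omega), mul_zero]
  · intro h
    exact absurd (Finset.mem_range.2 (by omega)) h

theorem UF_odd (f : PowerSeries Om) (n : ℕ) (hn : ∀ m, n ≠ 2 * m) :
    PowerSeries.coeff n (DI.F4.cs f (PowerSeries.X ^ 2)) = 0 := by
  rw [UF_cs]
  refine Finset.sum_eq_zero fun d _ => ?_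
  rw [if_neg (hn d), mul_zero]

/-- **(H5')** -/
theorem uF_honda [SqK k] (hO7 : S_O7) (hC7 : S_C7) (hR5 : S_R5) (hD9 : S_D9) (hB12 : S_B12)
    (hE1 : S_E1) (hE3 : S_E3) (hE10 : S_E10) (hKf : S_Kf) {f : ℕ} {m : Ideal (OO k)}
    {R : Finset (Ideal (OO k))} (hm : FM f m) (hR : FR f R) (hRC : IsRC f R) {P : Ideal ZZ}
    (hP : AbP k P) {σ : Ideal (OO k) → Gal(Om/ℚ)} (hσ : IsSig k f σ) {φ : Gal(Om/ℚ)}
    (hφ : φ ∈ GK k) (hFr : Fro P 2 φ) {N0 : ℕ} {β : Om} (hβ : β ∈ Kf k f)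
    (hβV : ∀ τ ∈ GK k, VP P (τ β)) (n : ℕ) :
    VP P (PowerSeries.coeff n (uF f m R σ N0 β - PowerSeries.C (rO f (pp k) ⊤) *
      DI.F4.cs (PowerSeries.map (φ : Om →+* Om) (uF f m R σ N0 β)) (PowerSeries.X ^ 2))) := by
  classical
  have : P.IsPrime := hP.1.1
  have hf := hm.odd
  have hf3 := hm.three
  have hf0 : 0 < f := by omega
  have hpp := fb_pp (k := k) hf hf3
  have hT := fb_top (k := k) f
  have hRb : ∀ b ∈ R, FB f b := fun b hb => ⟨(hR b hb).1, (hR b hb).2.1⟩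
  have hRb2 : ∀ b ∈ R, PrI b 2 := fun b hb => (hR b hb).2.2
  rw [map_sub, PowerSeries.coeff_C_mul]
  by_cases hn : ∃ m, n = 2 * m
  · obtain ⟨n', rfl⟩ := hn
    rw [UF_even, PowerSeries.coeff_map]
    unfold uF
    rw [PowerSeries.coeff_mk, PowerSeries.coeff_mk]
    -- the permutation of the classes
    have hex : ∀ b ∈ R, ∃ b' ∈ R, Ray f (pp k * b) b' := fun b hb =>
      hRC.ex _ (fb_mul hpp (hRb b hb)).ne (fb_mul hpp (hRb b hb)).cop
    choose! ρ hρ1 hρ2 using hex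
    obtain ⟨-, o2, o3, -, o5, -⟩ := hO7 k f hf0
    have hinj : Set.InjOn ρ R := by
      intro b hb b2 hb2 he
      have h1 := o3 _ _ _ (hρ2 b hb) (by
        rw [he]
        exact o2 _ _ (hρ2 b2 hb2))
      rw [mul_comm (pp k), mul_comm (pp k)] at h1
      exact hRC.uni b hb b2 hb2 (o5 _ _ _ hpp.ne hpp.cop h1)
    have hre : ∀ F : Ideal (OO k) → Om, ∑ b ∈ R, F b = ∑ b ∈ R, F (ρ b) := by
      intro F
      refine (Finset.sum_nbij ρ (fun b hb => hρ1 b hb) hinj ?_ fun _ _ => rfl).symm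
      exact Finset.surjOn_of_injOn_of_card_le ρ (fun b hb => hρ1 b hb) hinj le_rfl
    -- the two sums
    have hA : aF f m R σ N0 β (2 * n') = N0 * ∑ b ∈ R, σ (ρ b) β *
        (rO f (pp k * b) ⊤ * ofC (cM f m (pp k * b) (2 * n'))) := by
      unfold aF
      rw [hre]
      congr 1
      refine Finset.sum_congr rfl fun b hb => ?_
      rw [mul_assoc, cM_ray hC7 hB12 hR5 hm (fb_mul hpp (hRb b hb)) (hRb _ (hρ1 b hb)) (hρ2 b hb)]
    have hpsiφ : Psi φ f (pp k) := (hE3 k P φ hφ hFr f hf).1 hP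
    obtain ⟨-, -, -, e4, -⟩ := hE1 k f hf0
    obtain ⟨-, -, -, -, -, hK6, -⟩ := hKf k f hf hf3
    obtain ⟨-, e10, -⟩ := hE10 k φ f (pp k) hf0 hpsiφ
    obtain ⟨e10, -⟩ := e10 f hf hf3 dvd_rfl
    have hB : rO f (pp k) ⊤ * (φ : Om →+* Om) (aF f m R σ N0 β n') = N0 * ∑ b ∈ R, σ (ρ b) β *
        (rO f (pp k * b) ⊤ * ofC (cM f m b n')) := by
      change rO f (pp k) ⊤ * φ (aF f m R σ N0 β n') = _
      unfold aF
      rw [map_mul, map_natCast, map_sum, mul_left_comm, Finset.mul_sum]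
      congr 1
      refine Finset.sum_congr rfl fun b hb => ?_
      have h1 : φ (σ b β) = σ (ρ b) β := by
        have h2 := (hK6 (φ * σ b) (mul_mem hφ (hσ.mem b (hRb b hb))) (σ (ρ b))
          (hσ.mem _ (hRb _ (hρ1 b hb))) (pp k * b) (ρ b)
          (e4 _ _ _ _ hpsiφ (hσ.psi b (hRb b hb))) (hσ.psi _ (hRb _ (hρ1 b hb)))).2 (hρ2 b hb) β hβ
        rwa [AlgEquiv.mul_apply] at h2
      have h3 : φ (rO f b ⊤) = rO f (pp k * b) (pp k) := by
        have h4 := e10 b ⊤ (hRb b hb).ne (hRb b hb).cop hT.ne hT.cop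
        rwa [Ideal.mul_top] at h4
      rw [map_mul, map_mul, h1, h3, GK_cM hC7 hm (hRb b hb) n' hφ,
        ← rO_mul hR5 hf hf3 (fb_mul hpp (hRb b hb)) hpp hT]
      ring
    rw [hA, hB, ← mul_sub, ← Finset.sum_sub_distrib]
    refine DI.VP.mul (DI.VP.nat _) (DI.VP.sum _ _ fun b hb => ?_)
    have e : σ (ρ b) β * (rO f (pp k * b) ⊤ * ofC (cM f m (pp k * b) (2 * n'))) -
        σ (ρ b) β * (rO f (pp k * b) ⊤ * ofC (cM f m b n')) =
        σ (ρ b) β * (rO f (pp k * b) ⊤ * (ofC (cM f m (pp k * b) (2 * n')) -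
          ofC (cM f m b n'))) := by ring
    rw [e]
    exact DI.VP.mul (hβV _ (hσ.mem _ (hRb _ (hρ1 b hb))))
      (cM_pp hC7 hR5 hD9 hP hm (hRb b hb) (hRb2 b hb) n')
  · rw [UF_odd _ _ (fun m hm => hn ⟨m, hm⟩), mul_zero, sub_zero]
    unfold uF
    rw [PowerSeries.coeff_mk]
    unfold aF
    refine DI.VP.mul (DI.VP.nat _) (DI.VP.sum _ _ fun b hb => ?_)
    refine DI.VP.mul (DI.VP.mul (hβV _ (hσ.mem _ (hRb b hb)))
      (rO_unit hR5 hD9 hP hf hf3 (hRb b hb) (hRb2 b hb)).1) ?_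
    refine cM_odd hC7 hP hm (hRb b hb) (hRb2 b hb) ?_
    rcases Nat.even_or_odd n with h | h
    · obtain ⟨c, hc⟩ := h
      exact absurd ⟨c, by omega⟩ hn
    · exact h

end Pool.Agent.DK
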